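import Pool.Agent.helper132_lp.L3

/-! Strong type bounds for the arithmetic k-spherical maximal function, for every `k ≥ 3`,
every dimension `d ≥ 2 k (k - 1) + 1` and every `p > d / (d - k)`. -/

namespace Pool.Agent.Results.MP_40ec72_an.StrongTypeTwoKKMinusOne

open Pool.Agent.helper132_sph
open scoped ENNReal NNReal

/-- For every `k ≥ 3` and every `d ≥ 2 k (k - 1) + 1` the maximal operator `A_*` is bounded
on `ℓ^p(ℤ^d)` for every real `p > d / (d - k)`, and it is a contraction on `ℓ^∞(ℤ^d)`. -/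
theorem result : ∀ k : ℕ, 3 ≤ k → ∀ d : ℕ, 2 * k * (k - 1) + 1 ≤ d →
    (∀ p : ℝ, (d : ℝ) / (d - k) < p → ∃ C : ℝ≥0, ∀ f : (Fin d → ℤ) → ℂ,
      (∑' x, sphMax k f x ^ p) ^ (1 / p) ≤
        (C : ℝ≥0∞) * (∑' x, ENNReal.ofReal ‖f x‖ ^ p) ^ (1 / p)) ∧
    (∀ f : (Fin d → ℤ) → ℂ, ⨆ x, sphMax k f x ≤ ⨆ x, ENNReal.ofReal ‖f x‖) := by
  intro k hk d hd
  refine ⟨?_, fun f => iSup_le fun x => Pool.Agent.helper132_lp.sphMax_le_sup k (by omega) f x⟩
  intro p hp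
  obtain ⟨C, hC⟩ := Pool.Agent.helper132_p.endpoint_p k hk d hd
  have hkd : k < d := by
    have h1 : 2 * k * 2 ≤ 2 * k * (k - 1) := Nat.mul_le_mul_left _ (by omega)
    omega
  have hkR : (k : ℝ) < d := by exact_mod_cast hkd
  have hk0 : (0 : ℝ) ≤ k := Nat.cast_nonneg _
  have h1 : 1 ≤ (d : ℝ) / (d - k) := by
    rw [le_div_iff₀ (by linarith)]
    linarith
  exact Pool.Agent.helper132_lp.strong_of_endpoint k (by omega) _ p h1 hp C hC

end Pool.Agent.Results.MP_40ec72_an.StrongTypeTwoKKMinusOne
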